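import Mathlib
import Pool.Agent.MP_19b6be_gt.Affine

set_option autoImplicit false
open MeasureTheory

namespace Pool.Agent.Results.MP_19b6be_gt.AllEllipsoids

/-- The integral, over the Funk ball q + (1 - e^(-r)) (K - q), of the volume of the polar of K
about x. -/
noncomputable def funkInt {n : ℕ} (K : Set (EuclideanSpace ℝ (Fin n))) (r : ℝ)
    (q : EuclideanSpace ℝ (Fin n)) : ENNReal :=
  ∫⁻ x in {y | ∃ z ∈ K, y = q + (1 - Real.exp (-r)) • (z - q)},
    volume {w : EuclideanSpace ℝ (Fin n) | ∀ z ∈ K, inner ℝ w (z - x) ≤ 1}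

/-- E is the image of the Euclidean unit ball under an invertible affine map. -/
def IsEllipsoid {n : ℕ} (E : Set (EuclideanSpace ℝ (Fin n))) : Prop :=
  ∃ (c : EuclideanSpace ℝ (Fin n)) (A : EuclideanSpace ℝ (Fin n) →ₗ[ℝ] EuclideanSpace ℝ (Fin n)),
    LinearMap.det A ≠ 0 ∧ E = {y | ∃ v, ‖v‖ ≤ 1 ∧ y = c + A v}

/-- For every convex body K in R^n, every ellipsoid E and every r > 0, the centroid g of K is an
interior point of K, and the Funk integral of K with centre g is at most the Funk integral of E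
with any centre q in E. -/
theorem result :
    ∀ (n : ℕ) (K E : Set (EuclideanSpace ℝ (Fin n))),
      IsCompact K → Convex ℝ K → (interior K).Nonempty → IsEllipsoid E →
      ∀ r : ℝ, 0 < r → ∀ g : EuclideanSpace ℝ (Fin n), g = ⨍ x in K, x →
        g ∈ interior K ∧ ∀ q ∈ E, funkInt K r g ≤ funkInt E r q := by
  rintro n K E hK hc hi ⟨c, A, hA, rfl⟩ r hr g rfl
  have h0 : 0 < 1 - Real.exp (-r) := sub_pos.2 (Real.exp_lt_one_iff.2 (neg_lt_zero.2 hr))
  have h1 : 1 - Real.exp (-r) < 1 := sub_lt_self _ (Real.exp_pos _)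
  refine ⟨Pool.Agent.MP_19b6be_gt.centroid_mem hK hc hi, ?_⟩
  rintro q ⟨u, hu, rfl⟩
  have h := Pool.Agent.MP_19b6be_gt.funk_affine
    (isCompact_closedBall (0 : EuclideanSpace ℝ (Fin n)) 1) hA c u (1 - Real.exp (-r))
  simp only [mem_closedBall_zero_iff] at h
  exact (Pool.Agent.MP_19b6be_gt.funk_all hK hc hi h0 h1
    (mem_closedBall_zero_iff.2 hu)).trans_eq h.symm

end Pool.Agent.Results.MP_19b6be_gt.AllEllipsoids
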