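import Mathlib
import Pool.Agent.MP_19b6be_gt.Equal

set_option autoImplicit false
open MeasureTheory

namespace Pool.Agent.Results.MP_19b6be_gt.OnlyEllipsoids

/-- The integral, over the Funk ball q + (1 - e^(-r)) (K - q), of the volume of the polar of K
about x. -/
noncomputable def funkInt {n : ℕ} (K : Set (EuclideanSpace ℝ (Fin n))) (r : ℝ)
    (q : EuclideanSpace ℝ (Fin n)) : ENNReal :=
  ∫⁻ x in {y | ∃ z ∈ K, y = q + (1 - Real.exp (-r)) • (z - q)},
    volume {w : EuclideanSpace ℝ (Fin n) | ∀ z ∈ K, inner ℝ w (z - x) ≤ 1}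

/-- The quantity M_r(K): the least Funk integral over all interior centres. -/
noncomputable def funkMin {n : ℕ} (K : Set (EuclideanSpace ℝ (Fin n))) (r : ℝ) : ENNReal :=
  ⨅ q ∈ interior K, funkInt K r q

/-- E is the image of the Euclidean unit ball under an invertible affine map. -/
def IsEllipsoid {n : ℕ} (E : Set (EuclideanSpace ℝ (Fin n))) : Prop :=
  ∃ (c : EuclideanSpace ℝ (Fin n)) (A : EuclideanSpace ℝ (Fin n) →ₗ[ℝ] EuclideanSpace ℝ (Fin n)),
    LinearMap.det A ≠ 0 ∧ E = {y | ∃ v, ‖v‖ ≤ 1 ∧ y = c + A v}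

/-- For every convex body K in R^n, every ellipsoid E and every r > 0: M_r(K) = M_r(E) if and
only if K is an ellipsoid. -/
theorem result :
    ∀ (n : ℕ) (K E : Set (EuclideanSpace ℝ (Fin n))),
      IsCompact K → Convex ℝ K → (interior K).Nonempty → IsEllipsoid E →
      ∀ r : ℝ, 0 < r → (funkMin K r = funkMin E r ↔ IsEllipsoid K) := by
  rintro n K E hK hc hi ⟨c, A, hA, rfl⟩ r hr
  have h0 : 0 < 1 - Real.exp (-r) := sub_pos.2 (Real.exp_lt_one_iff.2 (neg_lt_zero.2 hr))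
  have h1 : 1 - Real.exp (-r) < 1 := sub_lt_self _ (Real.exp_pos _)
  have hE := Pool.Agent.MP_19b6be_gt.Eqc.ell_val hA c h0 h1
  constructor
  · intro h
    refine Pool.Agent.MP_19b6be_gt.Eqc.ell_of_le hK hc hi h0 h1 ((hE.symm.trans h.symm).trans_le ?_)
    exact iInf₂_le _ (Pool.Agent.MP_19b6be_gt.centroid_mem hK hc hi)
  · rintro ⟨c', A', hA', rfl⟩
    exact (Pool.Agent.MP_19b6be_gt.Eqc.ell_val hA' c' h0 h1).trans hE.symm

end Pool.Agent.Results.MP_19b6be_gt.OnlyEllipsoids
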